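import Pool.Agent.H97.HV.Targets3
import Pool.Agent.H97.PRK.All
import Pool.Agent.H1.HV.FI1

/-!
# Row ATM of the board hov (MP_e37c09_lc): an atom gives a normal measure of HOD(V_ γ)
-/

open _root_.HD HD.PRK HD.HV
open Ordinal Cardinal Order Set
open scoped ZFSet

universe u

namespace Pool.Agent.H38.HV

/-- ATM. -/
theorem pf_ATM (h0 : T_PVA.{u}) (h1 : T_MEA.{u}) : T_ATM.{u} := by
  intro δ hext K hK hδK hNS γ hfit
  obtain ⟨η, -, θ, j, hj⟩ := _root_.HD.All.xa δ hext 0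
  obtain ⟨D, hD, hDr, hDs, hD0⟩ := _root_.HD.All.xb δ η θ j hj
  clear hj
  subst hD
  have hom : (ℵ₀ : Cardinal.{u}).ord = ω := Cardinal.ord_aleph0
  have hωD : ω < D.ord := by
    rw [← hom]
    exact Cardinal.ord_lt_ord.2 hD0
  have hDK : D < K := Cardinal.ord_lt_ord.1 hδK
  have hK0 : ℵ₀ < K := hD0.trans hDK
  have hcof : ℵ₀ < K.ord.cof := by
    rw [hK.cof_ord]
    exact hK0
  obtain ⟨en, hen⟩ := _root_.HD.All.en
  have hNS' : NS D.ord (ℵ₀ : Cardinal.{u}).ord K.ord := by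
    rw [hom]
    exact hNS
  have hNSX := _root_.HD.All.ha D.ord (ℵ₀ : Cardinal.{u}).ord K.ord hNS'
  have hat := _root_.HD.All.hb en hen D ℵ₀ K hDr hDs hD0 Cardinal.isRegular_aleph0 hD0 hK hDK hNSX
  obtain ⟨c, -, hc⟩ := hat univ (DO.cst True)
    (_root_.HD.All.vc ℵ₀ K.ord Cardinal.isRegular_aleph0 hcof)
  have hN := h1 en hen ℵ₀ K hK hK0 c hc γ hfit
  have hγ0 : 0 < γ := hfit.lim.bot_lt
  refine ⟨_, hN, ?_⟩
  have hsub : os K.ord {a : Ordinal.{u} | IsSuccLimit a ∧ a.cof.ord < D.ord} ⊆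
      K.ord.toZFSet := by
    intro z hz
    obtain ⟨a, ha, -, rfl⟩ := mem_os.1 hz
    exact Ordinal.toZFSet_mem_toZFSet_iff.2 ha
  have hNV : NV γ (os K.ord {a : Ordinal.{u} | IsSuccLimit a ∧ a.cof.ord < D.ord}) :=
    h0.2.2.2.2 γ K.ord _ hγ0 hsub (h0.1 γ _ hγ0
      (od_os (Pool.Agent.H1.HV.ds_lim D.ord) K.ord))
  unfold US
  rw [ZFSet.mem_sep, ZFSet.mem_powerset]
  refine ⟨hsub, hNV, ?_⟩
  intro hP
  have hK1 : IsSuccLimit K.ord := Cardinal.isSuccLimit_ord hK0.le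
  obtain ⟨b, hbK, -, ⟨-, hb⟩, hcf⟩ := hP univ
    ⟨fun a ha => ⟨succ a, hK1.succ_lt ha, lt_succ a, mem_univ _⟩, fun x _ _ _ => mem_univ _⟩
  refine hb (ord_mem_os.2 ⟨hbK, ?_, ?_⟩)
  · have h1 : b.cof = ℵ₀ := by
      have h2 : b.cof.ord = (ℵ₀ : Cardinal.{u}).ord := hcf
      exact Cardinal.ord_injective h2
    rw [← Ordinal.one_lt_cof_iff, h1]
    exact Cardinal.one_lt_aleph0
  · show b.cof.ord < D.ord
    have h2 : b.cof.ord = (ℵ₀ : Cardinal.{u}).ord := hcf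
    rw [h2, hom]
    exact hωD

end Pool.Agent.H38.HV
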